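import Pool.Agent.Work.MP_510402_an.Interface

set_option autoImplicit false

namespace Pool.HAP.CONV

open scoped BigOperators

theorem mink (a b c d : ℝ) :
    Real.sqrt ((a + b) ^ 2 + (c + d) ^ 2) ≤ Real.sqrt (a ^ 2 + c ^ 2) + Real.sqrt (b ^ 2 + d ^ 2) := by
  have hS := Real.sqrt_nonneg (a ^ 2 + c ^ 2)
  have hT := Real.sqrt_nonneg (b ^ 2 + d ^ 2)
  have hS2 : Real.sqrt (a ^ 2 + c ^ 2) ^ 2 = a ^ 2 + c ^ 2 := Real.sq_sqrt (by positivity)
  have hT2 : Real.sqrt (b ^ 2 + d ^ 2) ^ 2 = b ^ 2 + d ^ 2 := Real.sq_sqrt (by positivity)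
  refine (Real.sqrt_le_left (by positivity)).mpr ?_
  have h1 : a * b + c * d ≤ Real.sqrt (a ^ 2 + c ^ 2) * Real.sqrt (b ^ 2 + d ^ 2) := by
    apply le_of_abs_le
    apply abs_le_of_sq_le_sq _ (by positivity)
    rw [mul_pow, hS2, hT2]
    nlinarith [sq_nonneg (a * d - b * c)]
  nlinarith

variable {V : Type*} [NormedAddCommGroup V] [NormedSpace ℝ V]

/-- the two-norm of a pair. -/
noncomputable def N (q : Seminorm ℝ V) (u v : V) : ℝ := Real.sqrt (‖u‖ ^ 2 + q v ^ 2)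

theorem N_nonneg (q : Seminorm ℝ V) (u v : V) : 0 ≤ N q u v := Real.sqrt_nonneg _

theorem N_sq (q : Seminorm ℝ V) (u v : V) : N q u v ^ 2 = ‖u‖ ^ 2 + q v ^ 2 :=
  Real.sq_sqrt (by positivity)

theorem N_add (q : Seminorm ℝ V) (u v u' v' : V) : N q (u + u') (v + v') ≤ N q u v + N q u' v' := by
  have h1 : N q (u + u') (v + v') ≤ Real.sqrt ((‖u‖ + ‖u'‖) ^ 2 + (q v + q v') ^ 2) := by
    apply Real.sqrt_le_sqrt
    have h2 := norm_add_le u u'
    have h3 := map_add_le_add q v v'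
    have h4 : ‖u + u'‖ ^ 2 ≤ (‖u‖ + ‖u'‖) ^ 2 := pow_le_pow_left₀ (norm_nonneg _) h2 2
    have h5 : q (v + v') ^ 2 ≤ (q v + q v') ^ 2 := pow_le_pow_left₀ (apply_nonneg q _) h3 2
    linarith
  exact h1.trans (mink _ _ _ _)

theorem N_smul (q : Seminorm ℝ V) (c : ℝ) (u v : V) : N q (c • u) (c • v) = ‖c‖ * N q u v := by
  unfold N
  rw [norm_smul, map_smul_eq_mul, mul_pow, mul_pow, ← mul_add, Real.sqrt_mul (by positivity),
    Real.sqrt_sq (norm_nonneg _)]

theorem bdd (q : Seminorm ℝ V) (x : V) : BddBelow (Set.range fun v => N q (x - v) v) :=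
  ⟨0, by rintro _ ⟨v, rfl⟩; exact N_nonneg q _ _⟩

/-- the infimal convolution. -/
noncomputable def K (q : Seminorm ℝ V) : Seminorm ℝ V :=
  Seminorm.ofSMulLE (fun x => ⨅ v, N q (x - v) v)
    (by
      apply le_antisymm
      · refine (ciInf_le (bdd q 0) 0).trans ?_
        unfold N
        simp
      · exact Real.iInf_nonneg (fun v => N_nonneg q _ _))
    (by
      intro x y
      apply le_ciInf_add_ciInf
      intro v w
      refine (ciInf_le (bdd q (x + y)) (v + w)).trans ?_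
      have e : x + y - (v + w) = (x - v) + (y - w) := by abel
      rw [e]
      exact N_add q _ _ _ _)
    (by
      intro c x
      rw [Real.mul_iInf_of_nonneg (norm_nonneg c)]
      apply le_ciInf
      intro v
      refine (ciInf_le (bdd q (c • x)) (c • v)).trans ?_
      rw [← smul_sub, N_smul])

theorem K_le (q : Seminorm ℝ V) (x v : V) : K q x ≤ N q (x - v) v := ciInf_le (bdd q x) v

theorem K_lt (q : Seminorm ℝ V) (x : V) (t : ℝ) (h : K q x < t) : ∃ v, N q (x - v) v < t :=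
  exists_lt_of_ciInf_lt h

end CONV

open CONV in
theorem stmt_Conv : Stmt_Conv := by
  intro ι _ q
  refine ⟨K q, fun x v => ?_, fun x ε hε => ?_⟩
  · rw [← N_sq]
    exact pow_le_pow_left₀ (apply_nonneg _ _) (K_le q x v) 2
  · have h1 : K q x < Real.sqrt (K q x ^ 2 + ε) := by
      rw [Real.lt_sqrt (apply_nonneg _ _)]
      linarith
    obtain ⟨v, hv⟩ := K_lt q x _ h1
    refine ⟨v, ?_⟩
    rw [← N_sq]
    have h2 : N q (x - v) v ^ 2 ≤ Real.sqrt (K q x ^ 2 + ε) ^ 2 :=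
      pow_le_pow_left₀ (N_nonneg q _ _) hv.le 2
    rwa [Real.sq_sqrt (by positivity)] at h2

theorem stmt_Sum2 : Stmt_Sum2 := by
  intro V _ _ n K w hw
  let f : V → EuclideanSpace ℝ (Fin n) := fun x => WithLp.toLp 2 (fun i => Real.sqrt (w i) * K i x)
  have hf : ∀ x, ‖f x‖ ^ 2 = ∑ i, w i * K i x ^ 2 := by
    intro x
    rw [EuclideanSpace.norm_sq_eq]
    refine Finset.sum_congr rfl (fun i _ => ?_)
    change ‖Real.sqrt (w i) * K i x‖ ^ 2 = _
    rw [Real.norm_eq_abs, sq_abs, mul_pow, Real.sq_sqrt (hw i)]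
  refine ⟨Seminorm.of (fun x => ‖f x‖) ?_ ?_, fun x => hf x⟩
  · intro x y
    refine le_trans ?_ (norm_add_le (f x) (f y))
    rw [EuclideanSpace.norm_eq, EuclideanSpace.norm_eq]
    apply Real.sqrt_le_sqrt
    refine Finset.sum_le_sum (fun i _ => ?_)
    change ‖Real.sqrt (w i) * K i (x + y)‖ ^ 2
      ≤ ‖Real.sqrt (w i) * K i x + Real.sqrt (w i) * K i y‖ ^ 2
    have h1 := map_add_le_add (K i) x y
    have h2 := Real.sqrt_nonneg (w i)
    have h3 := apply_nonneg (K i) (x + y)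
    rw [Real.norm_eq_abs, Real.norm_eq_abs, sq_abs, sq_abs, ← mul_add]
    exact pow_le_pow_left₀ (mul_nonneg h2 h3) (mul_le_mul_of_nonneg_left h1 h2) 2
  · intro c x
    have e : f (c • x) = ‖c‖ • f x := by
      ext i
      change Real.sqrt (w i) * K i (c • x) = ‖c‖ * (Real.sqrt (w i) * K i x)
      rw [map_smul_eq_mul]
      ring
    change ‖f (c • x)‖ = ‖c‖ * ‖f x‖
    rw [e, norm_smul, norm_norm]

end Pool.HAP

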