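import Pool.Agent.Work.MP_510402_an_98.SUMQ

set_option autoImplicit false

namespace Pool.HAP.SUMC

open scoped BigOperators
open Pool.HAP.SUMQ

variable {F : Type} [Field F] {ψ : F → ℝ}

theorem chi_zero [Fintype F] (χ : F → ℝ) (hmul : ∀ x y, χ (x + y) = χ x * χ y)
    (hval : ∀ x, χ x = 1 ∨ χ x = -1) (hnt : ∃ x, χ x ≠ 1) : ∑ x, χ x = 0 := by
  obtain ⟨x0, hx0⟩ := hnt
  have hx1 : χ x0 = -1 := (hval x0).resolve_left hx0
  have e : ∑ t, χ (t + x0) = ∑ t, χ t := Equiv.sum_comp (Equiv.addRight x0) χ
  have e2 : ∀ t, χ (t + x0) = - χ t := by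
    intro t
    rw [hmul, hx1]
    ring
  rw [Finset.sum_congr rfl (fun t _ => e2 t), Finset.sum_neg_distrib] at e
  linarith

/-- the `x`-sum. -/
noncomputable def G [Fintype F] (ψ : F → ℝ) (lam : F × F × F → ℝ) (w : F) : ℝ :=
  ∑ x, ψ (x * w) * lam (x, 0, 0)

theorem G_abs [Fintype F] (h : IsChar F ψ) (lam : F × F × F → ℝ)
    (hl : ∀ v, lam v = 1 ∨ lam v = -1) (w : F) : |G ψ lam w| ≤ (Fintype.card F : ℝ) := by
  refine (Finset.abs_sum_le_sum_abs _ _).trans ?_
  have e : ∀ x ∈ (Finset.univ : Finset F), |ψ (x * w) * lam (x, 0, 0)| = 1 := by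
    intro x _
    rw [abs_mul, psi_abs h, one_mul]
    rcases hl (x, 0, 0) with h0 | h0 <;> rw [h0] <;> simp
  rw [Finset.sum_congr rfl e]
  simp

theorem G_zero [Fintype F] (h : IsChar F ψ) (lam : F × F × F → ℝ)
    (hl : ∀ v, lam v = 1 ∨ lam v = -1) (hm : ∀ v w, lam (v + w) = lam v * lam w) :
    ∀ w w', G ψ lam w ≠ 0 → G ψ lam w' ≠ 0 → w = w' := by
  have triv : ∀ w, G ψ lam w ≠ 0 → ∀ x, ψ (x * w) * lam (x, 0, 0) = 1 := by
    intro w hw
    by_contra hc
    push Not at hc
    apply hw
    refine chi_zero (fun x => ψ (x * w) * lam (x, 0, 0)) ?_ ?_ hc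
    · intro x y
      have e : ((x + y, 0, 0) : F × F × F) = (x, 0, 0) + (y, 0, 0) := by simp
      change ψ ((x + y) * w) * lam (x + y, 0, 0) = _
      rw [e, hm, add_mul, h.mul]
      ring
    · intro x
      rcases h.val (x * w) with h1 | h1 <;> rcases hl (x, 0, 0) with h2 | h2 <;>
        simp [h1, h2]
  intro w w' hw hw'
  by_contra hne
  obtain ⟨x0, hx0⟩ := h.nontriv
  have hd : w - w' ≠ 0 := sub_ne_zero.mpr hne
  have t1 := triv w hw (x0 * (w - w')⁻¹)
  have t2 := triv w' hw' (x0 * (w - w')⁻¹)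
  have e : x0 * (w - w')⁻¹ * w = x0 * (w - w')⁻¹ * w' + x0 := by
    have : x0 * (w - w')⁻¹ * (w - w') = x0 := by
      rw [mul_assoc, inv_mul_cancel₀ hd, mul_one]
    rw [mul_sub] at this
    exact (sub_eq_iff_eq_add'.mp this)
  rw [e, h.mul, hx0] at t1
  have t3 : ψ (x0 * (w - w')⁻¹ * w') * lam (x0 * (w - w')⁻¹, 0, 0) = -1 := by
    linarith
  rw [t2] at t3
  norm_num at t3

end SUMC

open SUMQ SUMC in
theorem stmt_SumC : Stmt_SumC := by
  intro F _ _ ψ h lam hl hm a b c α β γ
  classical
  set q : ℝ := (Fintype.card F : ℝ) with hq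
  have hq0 : 0 ≤ q := by rw [hq]; positivity
  rw [p3]
  have e : ∀ y z, ∑ x, ψ (a * x + b * y + c * z + α * (x * y) + β * (y * z) + γ * (z * x)
      + x * y * z) * lam (x, y, z)
      = (ψ (b * y + c * z + β * (y * z)) * lam (0, y, z)) * G ψ lam (a + α * y + γ * z + y * z) := by
    intro y z
    unfold G
    rw [Finset.mul_sum]
    refine Finset.sum_congr rfl (fun x _ => ?_)
    have e1 : a * x + b * y + c * z + α * (x * y) + β * (y * z) + γ * (z * x) + x * y * z
        = (b * y + c * z + β * (y * z)) + x * (a + α * y + γ * z + y * z) := by ring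
    have e2 : ((x, y, z) : F × F × F) = (0, y, z) + (x, 0, 0) := by simp
    rw [e1, e2, h.mul, hm]
    ring
  rw [Finset.sum_congr rfl (fun y _ => Finset.sum_congr rfl (fun z _ => e y z))]
  refine (Finset.abs_sum_le_sum_abs _ _).trans ?_
  have hb : ∀ y z, |(ψ (b * y + c * z + β * (y * z)) * lam (0, y, z))
      * G ψ lam (a + α * y + γ * z + y * z)| = |G ψ lam (a + α * y + γ * z + y * z)| := by
    intro y z
    have : |lam (0, y, z)| = 1 := by
      rcases hl (0, y, z) with h0 | h0 <;> rw [h0] <;> simp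
    rw [abs_mul, abs_mul, psi_abs h, this]
    ring
  have h1 : ∀ y ∈ (Finset.univ : Finset F),
      |∑ z, (ψ (b * y + c * z + β * (y * z)) * lam (0, y, z))
        * G ψ lam (a + α * y + γ * z + y * z)| ≤ q + if y = -γ then q ^ 2 else 0 := by
    intro y _
    by_cases hy : y = -γ
    · rw [if_pos hy]
      refine (Finset.abs_sum_le_sum_abs _ _).trans ?_
      rw [Finset.sum_congr rfl (fun z _ => hb y z)]
      have : ∑ z, |G ψ lam (a + α * y + γ * z + y * z)| ≤ ∑ _z : F, q :=
        Finset.sum_le_sum (fun z _ => G_abs h lam hl _)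
      rw [Finset.sum_const, Finset.card_univ, nsmul_eq_mul, ← hq] at this
      nlinarith
    · rw [if_neg hy, add_zero]
      by_cases hex : ∃ z, G ψ lam (a + α * y + γ * z + y * z) ≠ 0
      · obtain ⟨z0, hz0⟩ := hex
        have e3 : ∑ z, (ψ (b * y + c * z + β * (y * z)) * lam (0, y, z))
            * G ψ lam (a + α * y + γ * z + y * z)
            = (ψ (b * y + c * z0 + β * (y * z0)) * lam (0, y, z0))
              * G ψ lam (a + α * y + γ * z0 + y * z0) := by
          apply Finset.sum_eq_single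
          · intro z _ hz
            have hG : G ψ lam (a + α * y + γ * z + y * z) = 0 := by
              by_contra hc
              have h4 := G_zero h lam hl hm _ _ hc hz0
              apply hz
              have h5 : (γ + y) * z = (γ + y) * z0 := by linear_combination h4
              have h6 : γ + y ≠ 0 := by
                intro h7
                exact hy (by linear_combination h7)
              exact mul_left_cancel₀ h6 h5
            rw [hG, mul_zero]
          · intro h0
            exact absurd (Finset.mem_univ _) h0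
        rw [e3, hb]
        exact G_abs h lam hl _
      · push Not at hex
        have e3 : ∑ z, (ψ (b * y + c * z + β * (y * z)) * lam (0, y, z))
            * G ψ lam (a + α * y + γ * z + y * z) = 0 := by
          apply Finset.sum_eq_zero
          intro z _
          rw [hex z, mul_zero]
        rw [e3, abs_zero]
        exact hq0
  refine (Finset.sum_le_sum h1).trans ?_
  rw [Finset.sum_add_distrib, Finset.sum_const, Finset.card_univ, nsmul_eq_mul, ← hq,
    Finset.sum_ite_eq' Finset.univ (-γ) (fun _ => q ^ 2), if_pos (Finset.mem_univ _)]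
  apply le_of_eq
  ring

end Pool.HAP

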