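import Pool.Agent.Work.MP_510402_an.Interface

set_option autoImplicit false

namespace Pool.HAP.SUMQ

open scoped BigOperators

variable {F : Type} [Field F] {ψ : F → ℝ}

theorem psi_zero (h : IsChar F ψ) : ψ 0 = 1 := by
  have h1 := h.mul 0 0
  rw [add_zero] at h1
  rcases h.val 0 with h0 | h0
  · exact h0
  · rw [h0] at h1
    norm_num at h1

theorem psi_abs (h : IsChar F ψ) (x : F) : |ψ x| = 1 := by
  rcases h.val x with h0 | h0 <;> rw [h0] <;> simp

theorem sum_zero [Fintype F] (h : IsChar F ψ) (w : F) (hw : w ≠ 0) : ∑ t, ψ (t * w) = 0 := by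
  obtain ⟨x0, hx0⟩ := h.nontriv
  have e : ∑ t, ψ ((t + x0 * w⁻¹) * w) = ∑ t, ψ (t * w) :=
    Equiv.sum_comp (Equiv.addRight (x0 * w⁻¹)) (fun t => ψ (t * w))
  have e2 : ∀ t, ψ ((t + x0 * w⁻¹) * w) = - ψ (t * w) := by
    intro t
    have h3 : (t + x0 * w⁻¹) * w = t * w + x0 := by
      rw [add_mul, mul_assoc, inv_mul_cancel₀ hw, mul_one]
    rw [h3, h.mul, hx0]
    ring
  rw [Finset.sum_congr rfl (fun t _ => e2 t), Finset.sum_neg_distrib] at e
  linarith

/-- inner sum is at most `q`, and zero unless `w = 0`. -/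
theorem sum_le [Fintype F] (h : IsChar F ψ) (w : F) :
    |∑ t, ψ (t * w)| ≤ (Fintype.card F : ℝ) := by
  refine (Finset.abs_sum_le_sum_abs _ _).trans ?_
  rw [Finset.sum_congr rfl (fun t _ => psi_abs h (t * w))]
  simp

theorem key [Fintype F] (h : IsChar F ψ) (g : F → F → ℝ) (hg : ∀ u v, |g u v| ≤ 1)
    (f : F → F → F) (hf : ∀ u v v', f u v = 0 → f u v' = 0 → v = v') :
    |∑ u, ∑ v, g u v * ∑ t, ψ (t * f u v)| ≤ (Fintype.card F : ℝ) ^ 2 := by
  classical
  refine (Finset.abs_sum_le_sum_abs _ _).trans ?_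
  have h1 : ∀ u ∈ (Finset.univ : Finset F), |∑ v, g u v * ∑ t, ψ (t * f u v)|
      ≤ (Fintype.card F : ℝ) := by
    intro u _
    by_cases hex : ∃ v, f u v = 0
    · obtain ⟨v0, hv0⟩ := hex
      have e : ∑ v, g u v * ∑ t, ψ (t * f u v) = g u v0 * ∑ t, ψ (t * f u v0) := by
        apply Finset.sum_eq_single
        · intro v _ hv
          have : f u v ≠ 0 := fun h0 => hv (hf u v v0 h0 hv0)
          rw [sum_zero h _ this, mul_zero]
        · intro h0
          exact absurd (Finset.mem_univ _) h0
      rw [e, abs_mul]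
      calc |g u v0| * |∑ t, ψ (t * f u v0)| ≤ 1 * (Fintype.card F : ℝ) :=
            mul_le_mul (hg u v0) (sum_le h _) (abs_nonneg _) zero_le_one
        _ = (Fintype.card F : ℝ) := one_mul _
    · have e : ∑ v, g u v * ∑ t, ψ (t * f u v) = 0 := by
        apply Finset.sum_eq_zero
        intro v _
        have : f u v ≠ 0 := fun h0 => hex ⟨v, h0⟩
        rw [sum_zero h _ this, mul_zero]
      rw [e, abs_zero]
      positivity
  refine (Finset.sum_le_sum h1).trans ?_
  rw [Finset.sum_const, Finset.card_univ, nsmul_eq_mul, sq]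

theorem p1 [Fintype F] (G : F → F → F → ℝ) :
    ∑ x, ∑ y, ∑ z, G x y z = ∑ z, ∑ x, ∑ y, G x y z := by
  have e : ∀ x, ∑ y, ∑ z, G x y z = ∑ z, ∑ y, G x y z := fun x => Finset.sum_comm
  rw [Finset.sum_congr rfl (fun x _ => e x)]
  exact Finset.sum_comm

theorem p2 [Fintype F] (G : F → F → F → ℝ) :
    ∑ x, ∑ y, ∑ z, G x y z = ∑ x, ∑ z, ∑ y, G x y z :=
  Finset.sum_congr rfl (fun x _ => Finset.sum_comm)

theorem p3 [Fintype F] (G : F → F → F → ℝ) :
    ∑ x, ∑ y, ∑ z, G x y z = ∑ y, ∑ z, ∑ x, G x y z := by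
  rw [Finset.sum_comm]
  exact Finset.sum_congr rfl (fun y _ => Finset.sum_comm)

theorem inner [Fintype F] (h : IsChar F ψ) (E : F → F) (r w : F) (hE : ∀ t, E t = r + t * w) :
    ∑ t, ψ (E t) = ψ r * ∑ t, ψ (t * w) := by
  rw [Finset.mul_sum]
  exact Finset.sum_congr rfl (fun t _ => by rw [hE, h.mul])

end SUMQ

open SUMQ in
theorem stmt_SumQ : Stmt_SumQ := by
  intro F _ _ ψ h a b c α β γ hne
  classical
  by_cases hα : α = 0
  · by_cases hβ : β = 0
    · by_cases hγ : γ = 0
      · subst hα hβ hγ
        by_cases ha : a = 0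
        · by_cases hb : b = 0
          · have hc : c ≠ 0 := by
              rcases hne with h0 | h0 | h0 | h0 | h0 | h0
              · exact absurd ha h0
              · exact absurd hb h0
              · exact h0
              · exact absurd rfl h0
              · exact absurd rfl h0
              · exact absurd rfl h0
            have e : ∀ x y, ∑ z, ψ (a * x + b * y + c * z + 0 * (x * y) + 0 * (y * z)
                + 0 * (z * x)) = ψ (a * x + b * y) * ∑ t, ψ (t * c) := fun x y =>
              inner h _ _ _ (fun t => by ring)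
            rw [Finset.sum_congr rfl (fun x _ => Finset.sum_congr rfl (fun y _ => e x y))]
            exact key h (fun x y => ψ (a * x + b * y)) (fun x y => (psi_abs h _).le)
              (fun _ _ => c) (fun _ _ _ h0 => absurd h0 hc)
          · rw [p2]
            have e : ∀ x z, ∑ y, ψ (a * x + b * y + c * z + 0 * (x * y) + 0 * (y * z)
                + 0 * (z * x)) = ψ (a * x + c * z) * ∑ t, ψ (t * b) := fun x z =>
              inner h _ _ _ (fun t => by ring)
            rw [Finset.sum_congr rfl (fun x _ => Finset.sum_congr rfl (fun z _ => e x z))]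
            exact key h (fun x z => ψ (a * x + c * z)) (fun x z => (psi_abs h _).le)
              (fun _ _ => b) (fun _ _ _ h0 => absurd h0 hb)
        · rw [p3]
          have e : ∀ y z, ∑ x, ψ (a * x + b * y + c * z + 0 * (x * y) + 0 * (y * z)
              + 0 * (z * x)) = ψ (b * y + c * z) * ∑ t, ψ (t * a) := fun y z =>
            inner h _ _ _ (fun t => by ring)
          rw [Finset.sum_congr rfl (fun y _ => Finset.sum_congr rfl (fun z _ => e y z))]
          exact key h (fun y z => ψ (b * y + c * z)) (fun y z => (psi_abs h _).le)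
            (fun _ _ => a) (fun _ _ _ h0 => absurd h0 ha)
      · subst hα hβ
        rw [p3]
        have e : ∀ y z, ∑ x, ψ (a * x + b * y + c * z + 0 * (x * y) + 0 * (y * z)
            + γ * (z * x)) = ψ (b * y + c * z) * ∑ t, ψ (t * (a + γ * z)) := fun y z =>
          inner h _ _ _ (fun t => by ring)
        rw [Finset.sum_congr rfl (fun y _ => Finset.sum_congr rfl (fun z _ => e y z))]
        refine key h (fun y z => ψ (b * y + c * z)) (fun y z => (psi_abs h _).le)
          (fun _ z => a + γ * z) (fun y z z' h0 h1 => ?_)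
        have h2 : γ * z = γ * z' := add_left_cancel (h0.trans h1.symm)
        exact mul_left_cancel₀ hγ h2
    · subst hα
      rw [p2]
      have e : ∀ x z, ∑ y, ψ (a * x + b * y + c * z + 0 * (x * y) + β * (y * z)
          + γ * (z * x)) = ψ (a * x + c * z + γ * (z * x)) * ∑ t, ψ (t * (b + β * z)) :=
        fun x z => inner h _ _ _ (fun t => by ring)
      rw [Finset.sum_congr rfl (fun x _ => Finset.sum_congr rfl (fun z _ => e x z))]
      refine key h (fun x z => ψ (a * x + c * z + γ * (z * x))) (fun x z => (psi_abs h _).le)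
        (fun _ z => b + β * z) (fun x z z' h0 h1 => ?_)
      have h2 : β * z = β * z' := add_left_cancel (h0.trans h1.symm)
      exact mul_left_cancel₀ hβ h2
  · rw [p1]
    have e1 : ∀ z, ∑ x, ∑ y, ψ (a * x + b * y + c * z + α * (x * y) + β * (y * z)
        + γ * (z * x)) = ∑ x, ψ (a * x + c * z + γ * (z * x))
          * ∑ t, ψ (t * (b + β * z + α * x)) := by
      intro z
      refine Finset.sum_congr rfl (fun x _ => ?_)
      exact inner h _ _ _ (fun t => by ring)
    rw [Finset.sum_congr rfl (fun z _ => e1 z)]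
    refine key h (fun z x => ψ (a * x + c * z + γ * (z * x))) (fun x z => (psi_abs h _).le)
      (fun z x => b + β * z + α * x) (fun z x x' h0 h1 => ?_)
    have h2 : α * x = α * x' := add_left_cancel (h0.trans h1.symm)
    exact mul_left_cancel₀ hα h2

end Pool.HAP

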